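import Pool.Agent.U820.LT.Fin2
import Pool.Agent.U820.LT.F54.End

/-!
# Torsion growth outside the middle dimension

There is a flag triangulation `S` of the `PL` sphere of dimension `6` such that, for the Davis complex of the
right-angled Coxeter group of `S` (a contractible `PL` manifold of dimension `7`) and its torsion-free normal subgroup
`Γ` of finite index, the orders of the torsion of `H_6` and of `H_7` of the coverings of the closed aspherical manifold
`(Davis complex / Γ)²` of dimension `14` grow exponentially in the index, for all normal chains of `Γ`.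
-/

set_option autoImplicit false

noncomputable section

namespace Pool.Agent.Results.MP_228c3b_gt.TorsionCounterexample

open Filter Pool.Agent.U729.LT Pool.Agent.U966.LD

theorem result : ∃ (n : ℕ) (S : SimpleGraph (Fin n)), PLS 7 (cl S) ∧ (∃ K : ℕ → Subgroup (Gam S), Chain K) ∧
    ∃ b : ℝ, 0 < b ∧ ∀ (K : ℕ → Subgroup (Gam S)) [∀ i, (K i).Normal], Chain K → ∀ᶠ i in atTop,
      ∀ m, m = 6 ∨ m = 7 → b ≤ growth ((davis S).prod (davis S)) ((K i).prod (K i)) m :=
  haveI : Fact (Nat.Prime 3) := ⟨Nat.prime_three⟩
  fin2s (p := 3) (by decide) (by norm_num) Pool.Agent.U820.LT.F54.dat Pool.Agent.U820.LT.F54.fs_lt Pool.Agent.U820.LT.F54.fs_sp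

end Pool.Agent.Results.MP_228c3b_gt.TorsionCounterexample
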